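import Pool.Agent.Q31.PK.Group

set_option autoImplicit false

/-!
# All cyclic branched covers of the pretzel knots P(3, -(2q+1), 2r+1)

Let `q, r ≥ 2` and `n ≥ 1`.  Every homomorphism from the fundamental group of the `n`-fold cyclic
branched cover of the pretzel knot `P(3, -(2q+1), 2r+1)` to a left-orderable group is trivial.  In
particular this fundamental group is not left-orderable.

Idea.  The fundamental group is generated by `x i`, `w i` (`i` modulo `n`); put `u i = x i w i`,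
`a i = x i (u i)^(-q) (w i)⁻¹` and `b i = w i (u i)^(q-1) x i (w i)^(-r)`; the relations are
`a (i+1) = a i w i` and `b (i+1) = x i b i`.  Let the group act by order automorphisms on a
complete linear order.  If `p ≤ a i (b i p)` and `b i p ≤ (a i)^r p`, not both equalities, for
`i + 1`, then the same holds for `i` and `w i p < p`, so that `a i p` decreases with `i`, which
contradicts periodicity.  So `p < a i (b i p)` implies `(a i)^r p < b i p` and `p < b i p`.  The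
condition `p < a i (b i p)` passes from `i` to `i + 1`, and it passes from `p` to all points that are
not separated from `p` by a common fixed point.  Then the minimum of `b i p` and `(a i)^(-r) (b i p)`
increases with `i`, again a contradiction.  So `p = a i (b i p)` for all `p`, and then everything is
fixed.
-/

universe u

namespace Pool.Agent.Results.MP_3d425c_gt.PretzelThreeCovers

/-- A nontrivial group is left-orderable if it carries a strict total order that is invariant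
under left multiplication. -/
def LeftOrderable (G : Type*) [Group G] : Prop :=
  Nontrivial G ∧ ∃ lt : G → G → Prop, IsStrictTotalOrder G lt ∧
    ∀ a b c : G, lt a b ↔ lt (c * a) (c * b)

/-- One crossing of a vertical twist region: if the two strands, both oriented downwards, have
meridians `(x, y)` (left, right) above the crossing, then they have meridians `(y, y⁻¹ x y)`
below it.  The inverse is the crossing of the other handedness. -/
def crossing (G : Type*) [Group G] : Equiv.Perm (G × G) where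
  toFun w := (w.2, w.2⁻¹ * w.1 * w.2)
  invFun w := (w.1 * w.2 * w.1⁻¹, w.1)
  left_inv w := by ext <;> simp [mul_assoc]
  right_inv w := by ext <;> simp [mul_assoc]

/-- The meridian `a j` of the arc at the top of the diagram that joins the top right end of
column `j - 1` to the top left end of column `j`, oriented into column `j`. -/
def arc (j : Fin 3) : FreeGroup (Fin 3) := FreeGroup.of j

/-- The downward meridians of the two strands at the bottom of column `j`, which has `m j`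
crossings; at the top they are `a j` and `(a (j+1))⁻¹`. -/
def bottom (m : Fin 3 → ℤ) (j : Fin 3) : FreeGroup (Fin 3) × FreeGroup (Fin 3) :=
  (crossing (FreeGroup (Fin 3)) ^ m j) (arc j, (arc (j + 1))⁻¹)

/-- The bottom right end of column `j` is joined to the bottom left end of column `j + 1`. -/
def relator (m : Fin 3 → ℤ) (j : Fin 3) : FreeGroup (Fin 3) :=
  (bottom m j).2 * (bottom m (j + 1)).1

/-- The group of the pretzel link with columns of `m 0`, `m 1`, `m 2` crossings. -/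
abbrev PretzelGroup (m : Fin 3 → ℤ) : Type := PresentedGroup (Set.range (relator m))

/-- The quotient of the pretzel group by the `n`-th power of the meridian `a 0`. -/
abbrev OrbifoldGroup (m : Fin 3 → ℤ) (n : ℕ) : Type :=
  PresentedGroup (Set.range (relator m) ∪ {arc 0 ^ n})

/-- The columns `3, -(2q+1), 2r+1`. -/
def columns (q r : ℕ) : Fin 3 → ℤ := ![3, -(2 * (q : ℤ) + 1), 2 * (r : ℤ) + 1]

section formulas
variable {G : Type*} [Group G]

theorem crossing_two (w : G × G) : (crossing G ^ (2 : ℤ)) w =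
    ((w.1 * w.2)⁻¹ * w.1 * (w.1 * w.2), (w.1 * w.2)⁻¹ * w.2 * (w.1 * w.2)) := by
  rw [show (2 : ℤ) = ((2 : ℕ) : ℤ) from rfl, zpow_natCast, pow_two]
  show crossing G (crossing G w) = _
  ext
  · show w.2⁻¹ * w.1 * w.2 = _
    simp only; group
  · show (w.2⁻¹ * w.1 * w.2)⁻¹ * w.2 * (w.2⁻¹ * w.1 * w.2) = _
    simp only; group

theorem crossing_even_nat (x y : G) (l : ℕ) : ((crossing G ^ (2 : ℤ)) ^ l) (x, y) =
    ((x * y) ^ (-(l : ℤ)) * x * (x * y) ^ (l : ℤ), (x * y) ^ (-(l : ℤ)) * y * (x * y) ^ (l : ℤ)) := by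
  induction l with
  | zero => simp
  | succ l ih =>
    rw [pow_succ', Equiv.Perm.mul_apply, ih, crossing_two]
    set P := x * y with hP
    have h1 : (P ^ (-(l : ℤ)) * x * P ^ (l : ℤ)) * (P ^ (-(l : ℤ)) * y * P ^ (l : ℤ)) = P := by
      calc _ = P ^ (-(l : ℤ)) * (x * y) * P ^ (l : ℤ) := by group
        _ = P := by rw [← hP]; group
    simp only [h1]
    push_cast
    ext
    · simp only; group
    · simp only; group

theorem crossing_even (x y : G) (l : ℤ) : (crossing G ^ (2 * l)) (x, y) =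
    ((x * y) ^ (-l) * x * (x * y) ^ l, (x * y) ^ (-l) * y * (x * y) ^ l) := by
  rw [zpow_mul]
  rcases Int.eq_nat_or_neg l with ⟨l, rfl | rfl⟩
  · rw [zpow_natCast]; exact crossing_even_nat x y l
  · rw [zpow_neg, zpow_natCast, Equiv.Perm.inv_eq_iff_eq, crossing_even_nat]
    set P := x * y with hP
    have h1 : (P ^ (-(-(l : ℤ))) * x * P ^ (-(l : ℤ))) * (P ^ (-(-(l : ℤ))) * y * P ^ (-(l : ℤ)))
        = P := by
      calc _ = P ^ ((l : ℤ)) * (x * y) * P ^ (-(l : ℤ)) := by group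
        _ = P := by rw [← hP]; group
    simp only [h1]
    ext
    · simp only; group
    · simp only; group

theorem crossing_odd (x y : G) (l : ℤ) : (crossing G ^ (2 * l + 1)) (x, y) =
    ((x * y) ^ (-l) * y * (x * y) ^ l, (x * y) ^ (-l - 1) * x * (x * y) ^ (l + 1)) := by
  rw [add_comm, zpow_one_add, Equiv.Perm.mul_apply, crossing_even]
  set P := x * y with hP
  have hy : y = x⁻¹ * P := by rw [hP]; group
  show ((P ^ (-l) * y * P ^ l), (P ^ (-l) * y * P ^ l)⁻¹ * (P ^ (-l) * x * P ^ l) *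
    (P ^ (-l) * y * P ^ l)) = _
  ext
  · rfl
  · simp only
    calc (P ^ (-l) * y * P ^ l)⁻¹ * (P ^ (-l) * x * P ^ l) * (P ^ (-l) * y * P ^ l)
        = P ^ (-l) * (y⁻¹ * (x * y)) * P ^ l := by group
      _ = P ^ (-l) * (y⁻¹ * P) * P ^ l := by rw [← hP]
      _ = P ^ (-l - 1) * (P * y⁻¹) * P ^ (l + 1) := by group
      _ = P ^ (-l - 1) * x * P ^ (l + 1) := by rw [hP]; group

end formulas

theorem bottom_odd (m : Fin 3 → ℤ) (j : Fin 3) (l : ℤ) (h : m j = 2 * l + 1) :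
    bottom m j = ((arc j * (arc (j + 1))⁻¹) ^ (-l) * (arc (j + 1))⁻¹ *
        (arc j * (arc (j + 1))⁻¹) ^ l,
      (arc j * (arc (j + 1))⁻¹) ^ (-l - 1) * arc j * (arc j * (arc (j + 1))⁻¹) ^ (l + 1)) := by
  unfold bottom
  rw [h, crossing_odd]

theorem rel_formula {G : Type*} [Group G] (μ : FreeGroup (Fin 3) →* G) (m : Fin 3 → ℤ)
    (j : Fin 3) (l l' : ℤ) (h : m j = 2 * l + 1) (h' : m (j + 1) = 2 * l' + 1)
    (hr : μ (relator m j) = 1) :
    (μ (arc j) * (μ (arc (j + 1)))⁻¹) ^ (-l - 1) * μ (arc j) *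
      (μ (arc j) * (μ (arc (j + 1)))⁻¹) ^ (l + 1) *
      ((μ (arc (j + 1)) * (μ (arc (j + 1 + 1)))⁻¹) ^ (-l') * (μ (arc (j + 1 + 1)))⁻¹ *
        (μ (arc (j + 1)) * (μ (arc (j + 1 + 1)))⁻¹) ^ l') = 1 := by
  unfold relator at hr
  rw [bottom_odd m j l h, bottom_odd m (j + 1) l' h'] at hr
  simpa only [map_mul, map_zpow, map_inv] using hr

/-- The relators of the orbifold group have degree `0`. -/
theorem degree_rel (m : Fin 3 → ℤ) (hm : ∀ j, Odd (m j)) (n : ℕ) :
    ∀ w ∈ Set.range (relator m) ∪ {arc 0 ^ n},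
      FreeGroup.lift (fun _ : Fin 3 => (Multiplicative.ofAdd 1 : Multiplicative (ZMod n))) w
        = 1 := by
  rintro w (⟨j, rfl⟩ | rfl)
  · obtain ⟨l, hl⟩ := hm j
    obtain ⟨l', hl'⟩ := hm (j + 1)
    unfold relator
    rw [bottom_odd m j l hl, bottom_odd m (j + 1) l' hl']
    simp [arc]
  · simp only [arc, map_pow, FreeGroup.lift_apply_of]
    rw [← ofAdd_nsmul]
    simp

/-- The homomorphism of the orbifold group to `Z/n` that sends all meridians `a j` to `1`
(for odd `m 0`, `m 1`, `m 2`, in which case the pretzel link is a knot). -/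
def degree (m : Fin 3 → ℤ) (hm : ∀ j, Odd (m j)) (n : ℕ) :
    OrbifoldGroup m n →* Multiplicative (ZMod n) :=
  PresentedGroup.toGroup (degree_rel m hm n)

/-- The fundamental group of the `n`-fold cyclic branched cover of the pretzel knot with columns
of `m 0`, `m 1`, `m 2` crossings: the kernel of the homomorphism to `Z/n` from the quotient
of the knot group by the `n`-th power of a meridian. -/
abbrev CoverGroup (m : Fin 3 → ℤ) (hm : ∀ j, Odd (m j)) (n : ℕ) : Type :=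
  (degree m hm n).ker

theorem columns_odd (q r : ℕ) : ∀ j, Odd (columns q r j) := by
  intro j
  fin_cases j
  · exact ⟨1, rfl⟩
  · exact ⟨-((q : ℤ) + 1), by show -(2 * (q : ℤ) + 1) = _; ring⟩
  · exact ⟨(r : ℤ), rfl⟩

/-- `G` has no nontrivial homomorphism to a left-orderable group; in particular it is not
left-orderable. -/
theorem not_lo {G : Type} [Group G]
    (h : ∀ (H : Type) [Group H], LeftOrderable H → ∀ f : G →* H, ∀ g, f g = 1) :
    ¬ LeftOrderable G := by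
  intro hG
  obtain ⟨a, b, hab⟩ := hG.1
  have key := h G hG (MonoidHom.id _)
  exact hab ((key a).trans (key b).symm)

theorem lo_order {H : Type*} [Group H] (hH : LeftOrderable H) :
    ∃ _ : LinearOrder H, ∀ a b c : H, a ≤ b ↔ c * a ≤ c * b := by
  classical
  obtain ⟨_, lt, hlt, hinv⟩ := hH
  refine ⟨linearOrderOfSTO lt, ?_⟩
  intro a b c
  show (a = b ∨ lt a b) ↔ (c * a = c * b ∨ lt (c * a) (c * b))
  rw [mul_right_inj, ← hinv]

section relations
variable {G : Type*} [Group G]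

/-- The first relation of the chain. -/
def EqA (q : ℕ) (s X Y : G) : Prop :=
  s * (X * Y * X⁻¹ * ((X * Y⁻¹) ^ q)⁻¹ * Y) * s⁻¹ = X * Y * X⁻¹ * ((X * Y⁻¹) ^ q)⁻¹

/-- The second relation of the chain. -/
def EqB (q r : ℕ) (s X Y : G) : Prop :=
  s * (Y⁻¹ * (X * Y⁻¹) ^ q * X * Y ^ r) * s⁻¹ = X * (Y⁻¹ * (X * Y⁻¹) ^ q * X * Y ^ r)

theorem pow_shift (X Y : G) (q : ℕ) : (X⁻¹ * Y) ^ (q + 1) = X⁻¹ * (Y * X⁻¹) ^ q * Y := by
  induction q with
  | zero => group
  | succ q ih => rw [pow_succ, ih, pow_succ]; group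

theorem inv_shift (X Y : G) (q : ℕ) : (Y * X⁻¹) ^ q = ((X * Y⁻¹) ^ q)⁻¹ := by
  rw [← inv_pow, mul_inv_rev, inv_inv]

theorem posA (q : ℕ) (s X Y V : G) (hV : V = X⁻¹ * Y)
    (R : X ^ (-1 - 1 : ℤ) * s * X ^ (1 + 1 : ℤ) *
      (V ^ (-(-((q : ℤ) + 2)) : ℤ) * (Y⁻¹ * s)⁻¹ * V ^ (-((q : ℤ) + 2))) = 1) : EqA q s X Y := by
  have h1 : X ^ (-1 - 1 : ℤ) = (X * X)⁻¹ := by group
  have h2 : X ^ (1 + 1 : ℤ) = X * X := by rw [show (1 + 1 : ℤ) = 2 from rfl, zpow_two]
  have h4 : V ^ (-((q : ℤ) + 2)) = (V ^ (-(-((q : ℤ) + 2)) : ℤ))⁻¹ := by rw [← zpow_neg, neg_neg]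
  have h3 : V ^ (-(-((q : ℤ) + 2)) : ℤ) = V ^ (q + 2) := by
    rw [neg_neg, ← zpow_natCast]; rfl
  rw [h1, h2, h4, h3] at R
  have h5 : X * X * V ^ (q + 2) = X * Y * X⁻¹ * ((X * Y⁻¹) ^ q)⁻¹ * Y := by
    rw [hV, pow_shift, pow_succ', inv_shift]; group
  set U := V ^ (q + 2) with hU
  set Z := ((X * Y⁻¹) ^ q)⁻¹ with hZ
  unfold EqA
  rw [← hZ]
  calc s * (X * Y * X⁻¹ * Z * Y) * s⁻¹ = X * X * ((X * X)⁻¹ * s * (X * X) *
        (U * (Y⁻¹ * s)⁻¹ * U⁻¹)) * U * Y⁻¹ := by rw [← h5]; group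
    _ = X * X * U * Y⁻¹ := by rw [R]; group
    _ = X * Y * X⁻¹ * Z := by rw [h5]; group

theorem posB (q r : ℕ) (s X Y V : G) (hV : V = X⁻¹ * Y)
    (R : V ^ (-(-((q : ℤ) + 2)) - 1 : ℤ) * (X⁻¹ * s) * V ^ (-((q : ℤ) + 2) + 1) *
      ((Y⁻¹) ^ (-(r : ℤ)) * s⁻¹ * (Y⁻¹) ^ (r : ℤ)) = 1) : EqB q r s X Y := by
  have h2 : V ^ (-((q : ℤ) + 2) + 1) = (V ^ (-(-((q : ℤ) + 2)) - 1 : ℤ))⁻¹ := by
    rw [← zpow_neg]; congr 1; ring
  have h1 : V ^ (-(-((q : ℤ) + 2)) - 1 : ℤ) = V ^ (q + 1) := by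
    rw [← zpow_natCast]; congr 1; push_cast; ring
  have h3 : (Y⁻¹) ^ (-(r : ℤ)) = Y ^ r := by rw [inv_zpow', neg_neg, zpow_natCast]
  have h4 : (Y⁻¹) ^ (r : ℤ) = (Y ^ r)⁻¹ := by rw [zpow_natCast, inv_pow]
  rw [h2, h1, h3, h4] at R
  have h5 : (V ^ (q + 1))⁻¹ = Y⁻¹ * (X * Y⁻¹) ^ q * X := by
    rw [hV, pow_shift, inv_shift]; group
  unfold EqB
  rw [← h5]
  set W := V ^ (q + 1) with hW
  set U := Y ^ r with hU
  calc s * (W⁻¹ * U) * s⁻¹ = X * W⁻¹ * (W * (X⁻¹ * s) * W⁻¹ * (U * s⁻¹ * U⁻¹)) * U := by group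
    _ = _ := by rw [R]; group

end relations

theorem cover_trivial (q r : ℕ) (hr : 1 ≤ r) {n : ℕ} (hn : 0 < n)
    {H : Type*} [Group H] (hH : LeftOrderable H)
    (f : CoverGroup (columns (q + 1) r) (columns_odd (q + 1) r) n →* H)
    (g : CoverGroup (columns (q + 1) r) (columns_odd (q + 1) r) n) : f g = 1 := by
  obtain ⟨_, hinv⟩ := lo_order hH
  set m := columns (q + 1) r with hm
  set a : Fin 3 → OrbifoldGroup m n := fun j => PresentedGroup.of j with ha
  have hs : a 0 ^ n = 1 := by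
    have h1 : PresentedGroup.mk (Set.range (relator m) ∪ {arc 0 ^ n}) (arc 0 ^ n) = 1 :=
      PresentedGroup.one_of_mem (Or.inr rfl)
    rwa [map_pow] at h1
  set μ := PresentedGroup.mk (Set.range (relator m) ∪ {arc 0 ^ n}) with hμ
  have hm0 : m 0 = 2 * 1 + 1 := rfl
  have hm1 : m 1 = 2 * (-((q : ℤ) + 2)) + 1 := by
    show -(2 * ((q + 1 : ℕ) : ℤ) + 1) = _
    push_cast; ring
  have hm2 : m (1 + 1) = 2 * (r : ℤ) + 1 := rfl
  have R0 : (a 0 * (a 1)⁻¹) ^ (-1 - 1 : ℤ) * a 0 * (a 0 * (a 1)⁻¹) ^ (1 + 1 : ℤ) *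
      ((a 1 * (a 2)⁻¹) ^ (-(-((q : ℤ) + 2)) : ℤ) * (a 2)⁻¹ *
        (a 1 * (a 2)⁻¹) ^ (-((q : ℤ) + 2))) = 1 :=
    rel_formula μ m 0 1 (-((q : ℤ) + 2)) hm0 hm1 (PresentedGroup.one_of_mem (Or.inl ⟨0, rfl⟩))
  have R1 : (a 1 * (a 2)⁻¹) ^ (-(-((q : ℤ) + 2)) - 1 : ℤ) * a 1 *
      (a 1 * (a 2)⁻¹) ^ (-((q : ℤ) + 2) + 1) *
      ((a 2 * (a 0)⁻¹) ^ (-(r : ℤ)) * (a 0)⁻¹ * (a 2 * (a 0)⁻¹) ^ (r : ℤ)) = 1 :=
    rel_formula μ m 1 (-((q : ℤ) + 2)) r hm1 hm2 (PresentedGroup.one_of_mem (Or.inl ⟨1, rfl⟩))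
  set s := a 0 with hs0
  set X := s * (a 1)⁻¹ with hX
  set Y := s * (a 2)⁻¹ with hY
  have e1 : a 1 = X⁻¹ * s := by rw [hX]; group
  have e2 : a 2 = Y⁻¹ * s := by rw [hY]; group
  have e3 : a 2 * s⁻¹ = Y⁻¹ := by rw [e2]; group
  have e4 : a 1 * (a 2)⁻¹ = X⁻¹ * Y := by rw [hX, hY]; group
  rw [e3] at R1
  have A : EqA q s X Y := posA q s X Y (a 1 * (a 2)⁻¹) e4 (by rw [← e2]; exact R0)
  have B : EqB q r s X Y := posB q r s X Y (a 1 * (a 2)⁻¹) e4 (by rw [← e1]; exact R1)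
  have da : ∀ j, degree m (columns_odd (q + 1) r) n (a j) = Multiplicative.ofAdd 1 :=
    fun j => PresentedGroup.toGroup.of _
  have dX : degree m (columns_odd (q + 1) r) n X = 1 := by
    rw [hX, map_mul, map_inv, hs0, da, da, mul_inv_cancel]
  have dY : degree m (columns_odd (q + 1) r) n Y = 1 := by
    rw [hY, map_mul, map_inv, hs0, da, da, mul_inv_cancel]
  refine Pool.Agent.Q31.PK.hom_trivial hn hs ?_ _ (da 0) dX dY q r hr A B hinv f g
  intro K h1 h2 h3
  rw [eq_top_iff, ← PresentedGroup.closure_range_of, Subgroup.closure_le]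
  rintro _ ⟨j, rfl⟩
  fin_cases j
  · exact h1
  · show a 1 ∈ K
    rw [e1]; exact mul_mem (inv_mem h2) h1
  · show a 2 ∈ K
    rw [e2]; exact mul_mem (inv_mem h3) h1

/-- For all `q, r ≥ 2` and every `n ≥ 1` the fundamental group of the `n`-fold cyclic branched
cover of the pretzel knot `P(3, -(2q+1), 2r+1)` is not left-orderable and has no nontrivial
homomorphism to a left-orderable group. -/
theorem result (q r : ℕ) (hq : 2 ≤ q) (hr : 2 ≤ r) (n : ℕ) (hn : 0 < n) :
    ¬ LeftOrderable (CoverGroup (columns q r) (columns_odd q r) n) ∧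
    ∀ (H : Type u) [Group H], LeftOrderable H →
      ∀ f : CoverGroup (columns q r) (columns_odd q r) n →* H, ∀ g, f g = 1 := by
  obtain ⟨k, rfl⟩ : ∃ k, q = k + 1 := ⟨q - 1, by omega⟩
  exact ⟨not_lo fun _ _ hH f g => cover_trivial k r (by omega) hn hH f g,
    fun _ _ hH f g => cover_trivial k r (by omega) hn hH f g⟩

end Pool.Agent.Results.MP_3d425c_gt.PretzelThreeCovers
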