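import Pool.Agent.Q184.LS.Ser

set_option autoImplicit false

/-!
# Rational tangles in series: comparison with the Seifert manifolds `M(-(K - 1); γ_1, ..., γ_K)`

Let `T`, `T'` be alternating tangle diagrams (`Pool.Agent.Y479.LS.Tangle`; the regions at the boundary
circle are `west`, `east` (white), `north`, `south` (black)), and let `L` be the link that is obtained
by gluing `T` and the mirror image of `T'` along the boundary circle, region by region. The group
`Union.Grp T T'` is the fundamental group of the double branched cover of `L`.

`Has m k u v c d` (`Pool.Agent.Q184.LS.Has`): between the regions `u`, `v` of one colour and `c`, `d` of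
the other colour the diagram contains the rational tangle `m / k`: it is found by adding crossings one
after the other, in parallel or in series, starting with one crossing; in between the regions may be
moved, outwards for `c`, `d` and inwards for `u`, `v`, in the order of the regions that is forced by the
diagram (`Below`). `Series l u v`: the diagram contains rational tangles `m / k ≥ 1`, `(m, k)` in the
list `l`, one after the other from `u` to `v`.

Suppose that `T` contains rational tangles `m_1 / k_1, ..., m_K / k_K` in series from `west` to `east`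
and that `T'` contains the rational tangle `r / t` between `north` and `south`, `r / t ≥ K - 1`. Put
`γ_i = k_i / m_i`. If `T` is the composition of these rational tangles and `T'` is rational, then the
double branched cover is, up to orientation, the Seifert manifold `M(-r / t; γ_1, ..., γ_K)`; for
`r / t = K - 1` this is `M(-(K - 1); γ_1, ..., γ_K)`, and in general it is
`- M(-1; r / t - (K - 1), 1 - γ_1, ..., 1 - γ_K)`. By Jankins-Neumann and Naimi it has a horizontal
foliation (all invariants in `(0, 1)`, three or more of them, Euler number not zero) if and only if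
there are `0 < a < M` such that in some order these invariants are less than
`a / M`, `(M - a) / M`, `1 / M, ..., 1 / M` (`Foliated`).

The theorem: if the sum of the invariants is greater than one (this is automatic for three positive
invariants) and the criterion fails, then for all `T`, `T'` as above the fundamental group of the double
branched cover has no nontrivial homomorphism to a left-orderable group. The same holds with the
colours exchanged and with `T`, `T'` exchanged.

For example (`K = 3`, `r / t = 2`): `T` contains the tangles `2`, `3 / 2`, `5 / 4` in series, and `T'`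
contains two crossings in parallel between `north` and `south`. By Jankins, Neumann and Naimi the only
values of `b` for which `M(-b; γ_1, ..., γ_K)` may fail to have a horizontal foliation, for
`0 < b < K`, are `b = 1` and `b = K - 1`; the case `b = 1` is the comparison theorem of
`MP_9ae2f3_gt.CompleteSeifertComparison`.
-/

namespace Pool.Agent.Results.MP_3d425c_gt.SeriesSeifertComparison

open Pool.Agent.Y479.LS Pool.Agent.Q184.LS

/-- The invariants `r / t - (K - 1)` and `1 - k / m` for `(m, k)` in `l`; `K` is the length of `l`. -/
def invariants (l : List (ℕ × ℕ)) (t r : ℕ) : List ℚ :=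
  ((r : ℚ) / t - ((l.length : ℚ) - 1)) :: l.map fun x => 1 - (x.2 : ℚ) / x.1

/-- One diagram contains the rational tangles of `l` in series between its poles `p`, `q`; the other one
contains `r / t` between its poles `a'`, `b'` of the other colour; `r / t ≥ K - 1`; the sum of the
invariants is greater than one and they do not satisfy the criterion of Jankins, Neumann and Naimi. -/
def Exceeds {V E C : Type} (v₁ v₂ : C → V) (e₁ e₂ : C → E) (p q : V) (a b : E) {V' E' C' : Type}
    (v₁' v₂' : C' → V') (e₁' e₂' : C' → E') (p' q' : V') (a' b' : E') : Prop :=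
  ∃ (l : List (ℕ × ℕ)) (t r : ℕ), Series v₁ v₂ e₁ e₂ p q a b l p q ∧
    Has e₁' e₂' v₁' v₂' a' b' p' q' r t a' b' p' q' ∧ l.length * t ≤ r + t ∧
    1 < (invariants l t r).sum ∧ ¬ Foliated (invariants l t r)

/-- The hypothesis for the white regions of `T` and the black regions of `T'`, or for the black regions
of `T` and the white regions of `T'`. -/
def TangleExceeds (T T' : Tangle) : Prop :=
  Exceeds T.w₁ T.w₂ T.b₁ T.b₂ T.west T.east T.north T.south
    T'.w₁ T'.w₂ T'.b₁ T'.b₂ T'.west T'.east T'.north T'.south ∨
  Exceeds T.b₁ T.b₂ T.w₁ T.w₂ T.north T.south T.west T.east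
    T'.b₁ T'.b₂ T'.w₁ T'.w₂ T'.north T'.south T'.west T'.east

theorem exceeds_false {V E C : Type} {v₁ v₂ : C → V} {e₁ e₂ : C → E} {p q : V} {a b : E}
    {V' E' C' : Type} {v₁' v₂' : C' → V'} {e₁' e₂' : C' → E'} {p' q' : V'} {a' b' : E'}
    {s₁ : V → List (C × Bool)} {s₂ : E → List (C × Bool)}
    {s₁' : V' → List (C' × Bool)} {s₂' : E' → List (C' × Bool)}
    [Finite V] [Finite E] [Finite V'] [Finite E'] {X : Type} [LinearOrder X]
    {f : V → Aut X} {h : E → Aut X} {f' : V' → Aut X} {h' : E' → Aut X}
    (S₁ : Side v₁ v₂ e₁ e₂ p q a b s₁) (S₂ : Side e₁ e₂ v₁ v₂ a b p q s₂)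
    (S₁' : Side v₁' v₂' e₁' e₂' p' q' a' b' s₁') (S₂' : Side e₁' e₂' v₁' v₂' a' b' p' q' s₂')
    (r₁ : Side.Rel v₁ v₂ e₁ e₂ f h) (r₂ : Side.Rel e₁ e₂ v₁ v₂ h f)
    (r₁' : Side.Rel v₁' v₂' e₁' e₂' f' h') (r₂' : Side.Rel e₁' e₂' v₁' v₂' h' f')
    (hf : Bounds f p q) (hh : Bounds h a b) (hf' : Bounds f' p' q') (hh' : Bounds h' a' b')
    (g1 : f q = f' q') (g2 : h b = h' b')
    (H : Exceeds v₁ v₂ e₁ e₂ p q a b v₁' v₂' e₁' e₂' p' q' a' b') : False := by
  obtain ⟨l, t, r, k1, k2, k3, k4, k5⟩ := H
  obtain ⟨L, l1, l2, l3⟩ := k1.sound S₁ S₂ r₁ r₂ hf hh
  have l4 := k2.sound S₂' S₁' r₂' r₁' hh' hf'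
  rw [hf.base, inv_one, one_mul] at l3
  rw [hh'.base, hf'.base, inv_one, one_mul, one_mul, ← g1, ← g2] at l4
  have hp : (invariants l t r).Perm
      (((r : ℚ) / t - ((l.length : ℚ) - 1)) :: L.map Prod.fst) := by
    rw [l1, invariants]
    exact (List.reverse_perm _).symm.cons _
  refine close_series (hf.pos q S₁.ne.symm) (hh.pos b S₂.ne.symm) l2 l3 l4 k3 ?_ ?_
  · rw [← hp.sum_eq]; exact k4
  · exact fun hF => k5 (hF.perm hp.symm)

/-- **Comparison with Seifert manifolds, rational tangles in series.** -/
theorem result (T T' : Tangle) (h : TangleExceeds T T' ∨ TangleExceeds T' T) :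
    (∀ (H : Type) [Group H], LeftOrderable H → ∀ (f : Union.Grp T T' →* H) (γ : Union.Grp T T'),
      f γ = 1) ∧ ¬ LeftOrderable (Union.Grp T T') := by
  have := T.finW
  have := T.finB
  have := T'.finW
  have := T'.finB
  refine Union.not_leftOrderable fun X _ _ w b w' b' D => ?_
  rcases h with (h | h) | (h | h)
  · exact exceeds_false T.white T.black T'.white T'.black D.rep.white D.rep.black D.rep'.white
      D.rep'.black D.white D.black D.white' D.black' D.east D.south h
  · exact exceeds_false T.black T.white T'.black T'.white D.rep.black D.rep.white D.rep'.black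
      D.rep'.white D.black D.white D.black' D.white' D.south D.east h
  · exact exceeds_false T'.white T'.black T.white T.black D.rep'.white D.rep'.black D.rep.white
      D.rep.black D.white' D.black' D.white D.black D.east.symm D.south.symm h
  · exact exceeds_false T'.black T'.white T.black T.white D.rep'.black D.rep'.white D.rep.black
      D.rep.white D.black' D.white' D.black D.white D.south.symm D.east.symm h

end Pool.Agent.Results.MP_3d425c_gt.SeriesSeifertComparison
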