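import Pool.Agent.Q184.TP.Forest

set_option autoImplicit false

/-!
# 3-fold cyclic branched covers of arborescent links with antiparallel twist regions

Let `T` be a plane tree with a root, whose vertices `v` have an integer weight `a_v`. The link `L(T)` is
the numerator closure of the tangle `E(root)`, where in Conway's notation
`E(v) = 1 / E(c₁) + ... + 1 / E(c_k) + 2 a_v` (`c₁, ..., c_k` the children of `v`). It is the boundary of
a Seifert surface which is plumbed, along the tree, from unknotted annuli with `± a_v` full twists (the
sign changes with the parity of the depth); with the orientation as a boundary, the two strings of every
twist region are antiparallel. For a path these are the 2-bridge links, for a star the Montesinos links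
with the invariants `1 / (2 a_v)`. The link diagram is alternating if all weights have the same sign.

The weights are `a = ± n` with a given sign `s` and a natural number `n`. The tree is admissible
(`Adm`) if every vertex `(s, n)` has at most `n` neighbours of the other sign, and `n ≥ 1` if it has no
children. For alternating trees (all signs equal) this means only that the leaves have `n ≥ 1`.

The fundamental group of the 3-fold cyclic cover of the 3-sphere, branched along the oriented link `L`,
is given by the lifts of the Wirtinger generators: three generators for each meridian, the lifts of the
Wirtinger relations, product one for the three lifts of a meridian (branching), and the three lifts of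
one meridian are trivial (tree of base points). In `Tangle` this is done for the tangles from which the
diagram of `L(T)` is built: `twist a` is a twist region with `2 |a|` crossings, `add` the sum, `inv` the
inverse, `Cover` the group of the numerator closure. `vert s n F.tangle` is the tangle `E(root)` for the
root `(s, n)` with the forest `F` of children.

The theorem: for every admissible tree, the fundamental group of the 3-fold cyclic branched cover has no
nontrivial homomorphism to a left-orderable group; in particular it is not left-orderable. There is no
condition on the valence of the vertices, and no condition on the depth.

The proof: an action on a linear order gives, for every tangle of the diagram, a comparison of the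
meridians at the western end with those at the eastern end in terms of the loops around two strings
(`P`); it holds for twist regions, is additive for sums, and for three sheets it is invariant under the
inversion of tangles; a twist absorbs a summand of the other sign. It contradicts the closing of the
link.
-/

namespace Pool.Agent.Results.MP_3d425c_gt.ThreefoldPlumbing

open Pool.Agent.Y479.LS Pool.Agent.Q184.TP

/-- A leaf. -/
abbrev leaf (s : Bool) (n : ℕ) (rest : Forest) : Forest := Forest.cons s n Forest.nil rest

/-- A vertex of weight `0` with three leaves of weight `1, 2, 3`, each with an edge of length two, is
admissible: all signs are equal. -/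
example : Adm true 0 (Forest.cons true 1 (leaf true 1 (leaf true 5 Forest.nil))
    (leaf true 2 (leaf true 3 Forest.nil))) := by
  simp [Adm, Forest.Adm, Forest.opp]

/-- Mixed signs: the root has weight `3`, its children have the weights `-1, -2, -1, 4`, and the second
of them has the children `1, -1`. -/
example : Adm true 3 (leaf false 1 (Forest.cons false 2 (leaf true 1 (leaf false 1 Forest.nil))
    (leaf false 1 (leaf true 4 Forest.nil)))) := by
  simp [Adm, Forest.Adm, Forest.opp]

/-- **3-fold cyclic branched covers of plumbings of annuli.** -/
theorem result (s : Bool) (n : ℕ) (F : Forest) (h : Adm s n F) :
    (∀ (H : Type) [Group H], LeftOrderable H →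
      ∀ (f : (vert s n F.tangle).Cover →* H) (γ : (vert s n F.tangle).Cover), f γ = 1) ∧
    ¬ LeftOrderable (vert s n F.tangle).Cover := by
  obtain ⟨h1, h2, h3⟩ := tree_main h
  have key : ∀ (H : Type) [Group H], LeftOrderable H →
      ∀ (f : (vert s n F.tangle).Cover →* H) (γ : (vert s n F.tangle).Cover), f γ = 1 :=
    fun H _ hH f γ => Tangle.hom_trivial'
      (fun X _ ψ g => Tangle.cover_trivial h1 h2 (sg_cases s) h3 ψ g) H hH f γ
  refine ⟨key, fun hH => ?_⟩
  obtain ⟨x, y, hxy⟩ := hH.1
  have h4 := key _ hH (MonoidHom.id _)
  exact hxy ((h4 x).trans (h4 y).symm)

end Pool.Agent.Results.MP_3d425c_gt.ThreefoldPlumbing
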